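import Pool.Agent.helper56.P3.Util
import Pool.Agent.helper96.P3.Return
import Pool.Agent.helper96.P3.Gauss
import Pool.Agent.helper36.P3.Places
import Pool.Agent.helper8.P3.Dom
import Pool.Agent.helper59.P3.MaxPrinciple

/-!
# P3: module H7 (RepTau)
-/

namespace Pool.Agent.helper56.P3

open Finset Pool.Agent.helper56.Per

namespace RepTau

section Gen

variable {K : Type*} [Field K] {b c : K} {n : ℕ} {Λ : K} {W : ℕ → K}

theorem unit_transfer {ν' ν : ValuationSubring K} (hle : ν' ≤ ν) {x y : K}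
    (hy : ν.valuation y = 1) (h : ν.valuation (x - y) < 1) : ν'.valuation x = ν'.valuation y := by
  have hy0 : y ≠ 0 := ne_zero_of_v_one hy
  have h1 : ν.valuation (x / y - 1) < 1 := by
    have e : x / y - 1 = (x - y) / y := by field_simp
    rw [e, map_div₀, hy, div_one]
    exact h
  have h2 := lt_of_le_of_lt' hle h1
  have h3 : ν'.valuation (x / y) = 1 := v_eq_one_of_sub h2 (map_one _)
  rw [map_div₀] at h3
  exact (div_eq_one_iff_eq ((ν'.valuation.ne_zero_iff).2 hy0)).1 h3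

theorem v_one_sub {Γ : Type*} [LinearOrderedCommGroupWithZero Γ] (v : Valuation K Γ) (x : K) :
    v (1 - x) = v (x - 1) := by
  rw [← Valuation.map_neg]; congr 1; ring

theorem gap_fun (h : WCyc b c n Λ W) {Γ : Type*} [LinearOrderedCommGroupWithZero Γ]
    (v : Valuation K Γ) (h0 : ∃ i0, v (W i0) ≤ 1) : ∃ g : ℕ → ℕ, ∀ i, IsGap v W i (g i) := by
  obtain ⟨i0, h0⟩ := h0
  have h1 : ∀ i, ∃ s, IsGap v W i s := fun i => by
    obtain ⟨s, hs, _⟩ := WCyc.exists_gap v h h0 i
    exact ⟨s, hs⟩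
  choose g hg using h1
  exact ⟨g, hg⟩

theorem hole_exists {Γ : Type*} [LinearOrderedCommGroupWithZero Γ] (v : Valuation K Γ)
    (G : GCtx v b c) (h : WCyc b c n Λ W) (hl : 1 < v Λ) : ∃ i0, v (W i0) ≤ 1 := by
  by_contra hcon
  push Not at hcon
  have h1 := (G_prod v G h (fun _ => 0) (fun i hi => absurd hi (not_le.2 (hcon i)))).1
  have h2 : #{i ∈ range n | v (W i) ≤ 1} = 0 := by
    rw [Finset.card_eq_zero, Finset.filter_eq_empty_iff]
    intro i _
    exact not_le.2 (hcon i)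
  rw [h2, mul_zero, pow_zero, mul_one] at h1
  exact absurd h1 hl.ne'

theorem key {ν ν' : ValuationSubring K} {q0 : ℕ} (hle : ν' ≤ ν) (Gc : GCtx ν.valuation b c)
    (D' : DCtx ν'.valuation b c q0) (h : WCyc b c n Λ W) (g : ℕ → ℕ)
    (hg : ∀ i, ν.valuation (W i) ≤ 1 → IsGap ν.valuation W i (g i)) :
    (ν'.valuation Λ * ν'.valuation c ^ (2 * #{i ∈ range n | ν.valuation (W i) ≤ 1})
      = ∏ i ∈ range n with ν.valuation (W i) ≤ 1, ν'.valuation (b ^ g i - 1) ^ 2) ∧
    ∀ i, ν.valuation (W i) ≤ 1 → ∀ j : ℕ,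
      ν'.valuation (W i * TT b c j) * ν'.valuation (b ^ g i - 1) = ν'.valuation (b ^ j - 1) := by
  constructor
  · have h1 := (G_prod ν.valuation Gc h g hg).2
    have hQ : ν.valuation (∏ i ∈ range n with ν.valuation (W i) ≤ 1, (-(1 - b ^ g i) ^ 2)) = 1 := by
      rw [map_prod]
      refine Finset.prod_eq_one fun i hi => ?_
      rw [Finset.mem_filter] at hi
      rw [Valuation.map_neg, map_pow, v_one_sub, Gc.one _ (hg i hi.2).1, one_pow]
    have h2 := unit_transfer hle hQ h1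
    rw [map_mul, map_mul, map_pow, map_pow, D'.vb, one_pow, mul_one, map_prod] at h2
    rw [h2]
    refine Finset.prod_congr rfl fun i _ => ?_
    rw [Valuation.map_neg, map_pow, v_one_sub]
  · intro i hi j
    obtain ⟨_, h1⟩ := G_hole ν.valuation Gc h hi (hg i hi)
    have h2 : ν.valuation (1 - b ^ g i) = 1 := by
      rw [v_one_sub, Gc.one _ (hg i hi).1]
    have h3 := unit_transfer hle h2 h1
    rw [v_one_sub] at h3
    have hW0 : ν'.valuation (W i) ≠ 0 := (ν'.valuation.ne_zero_iff).2 (h.ne0 i)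
    rw [map_div₀] at h3
    have h4 : ν'.valuation c = ν'.valuation (W i) * ν'.valuation (b ^ g i - 1) := by
      rw [← h3, mul_div_cancel₀ _ hW0]
    rw [map_mul, ← v_TT D'.vb D'.c0 j, h4]
    simp only [mul_comm, mul_left_comm]

theorem gap_mod (h : WCyc b c n Λ W) {Γ : Type*} [LinearOrderedCommGroupWithZero Γ]
    (i : ℕ) : W (i % n) = W i :=
  Function.Periodic.map_mod_nat (f := W) h.per i

end Gen

section Main

variable {k K : Type*} [Field k] [Field K] [Algebra k K] [IsAlgClosed k] [IsAlgClosed K]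
  [CharZero k] [Algebra.IsAlgebraic ℚ k] {n m : ℕ} {lam lam' : k} {a b x3 c : K} {W W' : ℕ → K}
  {O : ValuationSubring k} {g : K} {ν0 : ValuationSubring K} {q0 L : ℕ}

/-- the product formula at a dominating valuation below a Gauss-type valuation -/
theorem step {ν ν' : ValuationSubring K} (hle : ν' ≤ ν) (Gc : GCtx ν.valuation b c)
    (D' : DCtx ν'.valuation b c q0) (h : WCyc b c n (algebraMap k K lam) W)
    (hex : ∃ i0, ν.valuation (W i0) ≤ 1) {τ : k} (hτ0 : τ ≠ 0)
    (hτ : τ ^ (2 * #{i ∈ range n | ν.valuation (W i) ≤ 1}) = lam)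
    (hZL : ∀ i, 1 ≤ ν'.valuation (W i * TT b c (q0 * 2 ^ L)))
    (hT : ν'.valuation (TT b c (q0 * 2 ^ L) / algebraMap k K τ) ≤ 1) :
    ν'.valuation (TT b c (q0 * 2 ^ L) / algebraMap k K τ) = 1 ∧
    ∀ i, ν.valuation (W i) ≤ 1 → ν'.valuation (W i * TT b c (q0 * 2 ^ L)) = 1 := by
  obtain ⟨gf, hgf⟩ := gap_fun h ν.valuation hex
  obtain ⟨k1, k2⟩ := key hle Gc D' h gf (fun i _ => hgf i)
  set T := TT b c (q0 * 2 ^ L) with hTdef
  set A := (range n).filter (fun i => ν.valuation (W i) ≤ 1) with hA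
  have hpos : 0 < A.card := by
    obtain ⟨i0, h0⟩ := hex
    refine Finset.card_pos.2 ⟨i0 % n, ?_⟩
    rw [hA, Finset.mem_filter, mem_range, gap_mod h (Γ := ν.ValueGroup)]
    exact ⟨Nat.mod_lt _ h.npos, h0⟩
  have hβ0 : ∀ i, ν'.valuation (b ^ gf i - 1) ≠ 0 := by
    intro i
    refine (ν'.valuation.ne_zero_iff).2 (ne_zero_of_v_one (Gc.one _ (hgf i).1))
  have hτK : algebraMap k K τ ≠ 0 := (_root_.map_ne_zero _).2 hτ0
  have hτv : ν'.valuation (algebraMap k K τ) ≠ 0 := (ν'.valuation.ne_zero_iff).2 hτK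
  have e1 : ∏ i ∈ A, (ν'.valuation (W i * T) * ν'.valuation (b ^ gf i - 1)) ^ 2
      = ν'.valuation (b ^ (q0 * 2 ^ L) - 1) ^ (2 * A.card) := by
    rw [pow_mul, ← Finset.prod_const]
    refine Finset.prod_congr rfl fun i hi => ?_
    rw [hA, Finset.mem_filter] at hi
    rw [k2 i hi.2]
  have e2 : ν'.valuation (b ^ (q0 * 2 ^ L) - 1) = ν'.valuation T * ν'.valuation c :=
    (v_TT D'.vb D'.c0 _).symm
  have e3 : ν'.valuation T = ν'.valuation (T / algebraMap k K τ) * ν'.valuation (algebraMap k K τ) := by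
    rw [map_div₀, div_mul_cancel₀ _ hτv]
  have e4 : ν'.valuation (algebraMap k K τ) ^ (2 * A.card) = ν'.valuation (algebraMap k K lam) := by
    rw [← map_pow, ← map_pow, hτ]
  have e5 : (∏ i ∈ A, ν'.valuation (W i * T) ^ 2) * ∏ i ∈ A, ν'.valuation (b ^ gf i - 1) ^ 2
      = ν'.valuation (T / algebraMap k K τ) ^ (2 * A.card)
        * ∏ i ∈ A, ν'.valuation (b ^ gf i - 1) ^ 2 := by
    calc (∏ i ∈ A, ν'.valuation (W i * T) ^ 2) * ∏ i ∈ A, ν'.valuation (b ^ gf i - 1) ^ 2
        = ∏ i ∈ A, (ν'.valuation (W i * T) * ν'.valuation (b ^ gf i - 1)) ^ 2 := by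
          rw [← Finset.prod_mul_distrib]
          exact Finset.prod_congr rfl fun i _ => (mul_pow _ _ _).symm
      _ = (ν'.valuation T * ν'.valuation c) ^ (2 * A.card) := by rw [e1, e2]
      _ = ν'.valuation (T / algebraMap k K τ) ^ (2 * A.card)
          * (ν'.valuation (algebraMap k K τ) ^ (2 * A.card)
            * ν'.valuation c ^ (2 * A.card)) := by
          rw [e3, mul_pow, mul_pow, mul_assoc]
      _ = _ := by rw [e4, k1]
  have e6 : ∏ i ∈ A, ν'.valuation (W i * T) ^ 2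
      = ν'.valuation (T / algebraMap k K τ) ^ (2 * A.card) := by
    refine mul_right_cancel₀ ?_ e5
    exact Finset.prod_ne_zero_iff.2 fun i _ => pow_ne_zero _ (hβ0 i)
  have h7 : ∀ i ∈ A, 1 ≤ ν'.valuation (W i * T) ^ 2 := fun i _ => one_le_pow₀ (hZL i)
  have h8 : ∏ i ∈ A, ν'.valuation (W i * T) ^ 2 = 1 := by
    apply le_antisymm
    · rw [e6]
      exact pow_le_one₀ zero_le hT
    · exact Finset.one_le_prod' h7
  have h9 := (Finset.prod_eq_one_iff_of_one_le' h7).1 h8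
  have h10 : ∀ i ∈ A, ν'.valuation (W i * T) = 1 := by
    intro i hi
    exact (pow_eq_one_iff_of_nonneg zero_le two_ne_zero).1 (h9 i hi)
  refine ⟨?_, ?_⟩
  · rw [h8] at e6
    exact (pow_eq_one_iff_of_nonneg zero_le (by omega)).1 e6.symm
  · intro i hi
    have h11 : i % n ∈ A := by
      rw [hA, Finset.mem_filter, mem_range, gap_mod h (Γ := ν.ValueGroup)]
      exact ⟨Nat.mod_lt _ h.npos, hi⟩
    have h12 := h10 _ h11
    rwa [gap_mod h (Γ := ν.ValueGroup)] at h12

/-- arithmetic of the gaps -/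
theorem gap_arith {ν ν' : ValuationSubring K} (hle : ν' ≤ ν) (h2 : ν.valuation 2 < 1)
    (Gc : GCtx ν.valuation b c) (D' : DCtx ν'.valuation b c q0) {s : ℕ} (hs : 0 < s)
    (h : ν'.valuation (b ^ s - 1) = ν'.valuation (b ^ (q0 * 2 ^ L) - 1)) :
    ∃ u, Odd u ∧ s = q0 * 2 ^ L * u := by
  set β := ν'.valuation (b ^ q0 - 1) with hβ
  have hq0 : 0 < q0 := D'.odd.pos
  have hβ0 : 0 < β := zero_lt_iff.2 ((ν'.valuation.ne_zero_iff).2
    (ne_zero_of_v_one (Gc.one _ hq0)))
  have hβ1 : β < 1 := D'.lt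
  have e1 : ν'.valuation (b ^ (q0 * 2 ^ L) - 1) = β ^ 2 ^ L := by
    have := beta hle h2 Gc.one D'.odd D'.lt L (u := 1) odd_one
    rwa [mul_one] at this
  have hdvd : q0 ∣ s := by
    by_contra hnd
    rw [D'.one s hnd, e1] at h
    exact absurd h (pow_lt_one₀ hβ0.le hβ1 (by positivity)).ne'
  obtain ⟨s', rfl⟩ := hdvd
  have hs' : s' ≠ 0 := by rintro rfl; simp at hs
  obtain ⟨l, u, hu, rfl⟩ := Nat.exists_eq_two_pow_mul_odd hs'
  have e2 : ν'.valuation (b ^ (q0 * (2 ^ l * u)) - 1) = β ^ 2 ^ l := by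
    have := beta hle h2 Gc.one D'.odd D'.lt l hu
    rwa [mul_assoc] at this
  rw [e1, e2] at h
  have h3 : (2 ^ l : ℕ) = 2 ^ L := (pow_right_strictAnti₀ hβ0 hβ1).injective h
  exact ⟨u, hu, by rw [h3]; ring⟩

end Main

end RepTau

section H7

open RepTau

variable {k K : Type*} [Field k] [Field K] [Algebra k K] [IsAlgClosed k] [IsAlgClosed K]
  [CharZero k] [Algebra.IsAlgebraic ℚ k] {n m : ℕ} {lam lam' : k} {a b x3 c : K} {W W' : ℕ → K}
  {O : ValuationSubring k} {g : K} {ν0 : ValuationSubring K} {q0 L : ℕ}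

set_option linter.unusedSectionVars false in
/-- V8: `T/τ` is a unit of `Loc`, all gaps of `W` have exact level `L` at all Gauss-type
valuations; there are Gauss-type valuations. -/
theorem rep_tau (G : Glob n m lam lam' a b x3 c W W') (R : Rep O g ν0 b c q0 L W W')
    (hl : 1 < O.valuation lam) :
    (∃ ν, IsGauss O g ν0 ν) ∧
    (∃ τ : k, τ ≠ 0 ∧ TT b c (q0 * 2 ^ L) / algebraMap k K τ ∈ Loc O g ν0 ∧
      (TT b c (q0 * 2 ^ L) / algebraMap k K τ)⁻¹ ∈ Loc O g ν0) ∧
    (∀ ν, IsGauss O g ν0 ν → ∀ i s, ν.valuation (W i) ≤ 1 → IsGap ν.valuation W i s →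
      ∃ u, Odd u ∧ s = q0 * 2 ^ L * u) := by
  have hB := R.base
  have hself := dom_self hB
  set T := TT b c (q0 * 2 ^ L) with hTdef
  have hq0 : 0 < q0 := (R.dctx ν0 hself).odd.pos
  have hqL : 0 < q0 * 2 ^ L := by positivity
  -- existence of a Gauss-type valuation
  have hexG : ∃ ν, IsGauss O g ν0 ν := by
    by_contra hno
    push Not at hno
    have h1 : T ∈ Loc O g ν0 := mp G.td hB (fun P hP => R.del P hP) (fun ν hν => absurd hν (hno ν))
    exact absurd (hself.le_of_loc h1) (not_le.2 (R.TL ν0 hself L le_rfl))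
  -- sizes at Gauss-type valuations
  have hlν : ∀ ν, IsGauss O g ν0 ν → 1 < ν.valuation (algebraMap k K lam) :=
    fun ν hν => (hν.ext.one_lt_iff lam).2 hl
  have hhole : ∀ ν, IsGauss O g ν0 ν → ∃ i0, ν.valuation (W i0) ≤ 1 :=
    fun ν hν => hole_exists ν.valuation (R.gctx ν hν) G.hW (hlν ν hν)
  have hTc : ∀ ν, IsGauss O g ν0 ν → ν.valuation T * ν.valuation c = 1 := by
    intro ν hν
    rw [hTdef, v_TT (R.gctx ν hν).vb (R.gctx ν hν).c0, (R.gctx ν hν).one _ hqL]
  have hT1 : ∀ ν, IsGauss O g ν0 ν → 1 < ν.valuation T := by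
    intro ν hν
    have hc := (R.gctx ν hν).vc
    have hc0 : 0 < ν.valuation c := zero_lt_iff.2 ((ν.valuation.ne_zero_iff).2 (R.gctx ν hν).c0)
    by_contra hcon
    rw [not_lt] at hcon
    have := mul_le_mul' hcon (le_refl (ν.valuation c))
    rw [hTc ν hν, one_mul] at this
    exact absurd this (not_le.2 hc)
  let H : ValuationSubring K → ℕ := fun ν => #{i ∈ range n | ν.valuation (W i) ≤ 1}
  have hlamT : ∀ ν, IsGauss O g ν0 ν →
      ν.valuation (algebraMap k K lam) = ν.valuation T ^ (2 * H ν) := by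
    intro ν hν
    obtain ⟨gf, hgf⟩ := gap_fun G.hW ν.valuation (hhole ν hν)
    have h1 := (G_prod ν.valuation (R.gctx ν hν) G.hW gf (fun i _ => hgf i)).1
    have h2 : (ν.valuation T * ν.valuation c) ^ (2 * H ν) = 1 := by rw [hTc ν hν, one_pow]
    calc ν.valuation (algebraMap k K lam)
        = ν.valuation (algebraMap k K lam) * (ν.valuation T * ν.valuation c) ^ (2 * H ν) := by
          rw [h2, mul_one]
      _ = (ν.valuation (algebraMap k K lam) * ν.valuation c ^ (2 * H ν)) *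
            ν.valuation T ^ (2 * H ν) := by
          rw [mul_pow, mul_assoc, mul_comm (ν.valuation T ^ (2 * H ν))]
      _ = _ := by rw [h1, one_mul]
  -- a Gauss-type valuation with the minimal number of holes
  obtain ⟨ν1, hν1, hmin⟩ : ∃ ν1, IsGauss O g ν0 ν1 ∧ ∀ ν, IsGauss O g ν0 ν → H ν1 ≤ H ν := by
    classical
    have hex : ∃ N, ∃ ν, IsGauss O g ν0 ν ∧ H ν = N := by
      obtain ⟨ν, hν⟩ := hexG
      exact ⟨H ν, ν, hν, rfl⟩
    obtain ⟨ν1, hν1, hN⟩ := Nat.find_spec hex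
    refine ⟨ν1, hν1, fun ν hν => ?_⟩
    rw [hN]
    exact Nat.find_min' hex ⟨ν, hν, rfl⟩
  have hHpos : 0 < H ν1 := by
    by_contra h0
    have h0' : H ν1 = 0 := by omega
    have h1 := hlamT ν1 hν1
    rw [h0', mul_zero, pow_zero] at h1
    exact absurd h1 (hlν ν1 hν1).ne'
  obtain ⟨τ, hτ⟩ := IsAlgClosed.exists_pow_nat_eq lam (n := 2 * H ν1) (by omega)
  have hτ0 : τ ≠ 0 := by
    rintro rfl
    rw [zero_pow (by omega)] at hτ
    exact G.l0 hτ.symm
  have hτK : algebraMap k K τ ≠ 0 := (_root_.map_ne_zero _).2 hτ0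
  have hτlam : ∀ ν : ValuationSubring K, ν.valuation (algebraMap k K τ) ^ (2 * H ν1)
      = ν.valuation (algebraMap k K lam) := by
    intro ν
    rw [← map_pow, ← map_pow, hτ]
  -- step A
  have hA : ∀ ν, IsGauss O g ν0 ν → ν.valuation (T / algebraMap k K τ) ≤ 1 := by
    intro ν hν
    have hτv : 0 < ν.valuation (algebraMap k K τ) := zero_lt_iff.2 ((ν.valuation.ne_zero_iff).2 hτK)
    rw [map_div₀, div_le_one₀ hτv]
    have h1 : ν.valuation T ^ (2 * H ν1) ≤ ν.valuation (algebraMap k K τ) ^ (2 * H ν1) := by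
      rw [hτlam ν, hlamT ν hν]
      exact pow_le_pow_right₀ (hT1 ν hν).le (by have := hmin ν hν; omega)
    exact (pow_le_pow_iff_left₀ zero_le zero_le (by omega)).1 h1
  -- T / τ is in Loc
  have hC : T / algebraMap k K τ ∈ Loc O g ν0 := by
    refine mp G.td hB (fun P hP => ?_) hA
    rw [map_div₀, hP.pl.cst τ hτ0, div_one]
    exact R.del P hP
  have hZL : ∀ ν', Dom O g ν0 ν' → ∀ i, 1 ≤ ν'.valuation (W i * T) :=
    fun ν' hν' i => not_lt.1 (R.hZL ν' hν' i)
  -- step E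
  have hE : (T / algebraMap k K τ)⁻¹ ∈ Loc O g ν0 := by
    obtain ⟨ν', hle, hD⟩ := exists_dom_le hB hν1.le
    have h1 := step (k := k) hle (R.gctx ν1 hν1) (R.dctx ν' hD) G.hW (hhole ν1 hν1) hτ0 hτ
      (hZL ν' hD) (hD.le_of_loc hC)
    exact Dom.inv_mem hB hD hC h1.1
  -- step F
  have hF : ∀ ν, IsGauss O g ν0 ν → H ν = H ν1 := by
    intro ν hν
    have h1 : ν.valuation (T / algebraMap k K τ) ≤ 1 := hA ν hν
    have h2 : ν.valuation (T / algebraMap k K τ)⁻¹ ≤ 1 :=
      (ν.valuation_le_one_iff _).2 (hν.le hE)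
    have hT0 : T / algebraMap k K τ ≠ 0 := by
      refine div_ne_zero ?_ hτK
      have := hT1 ν hν
      rintro h0
      rw [h0, map_zero] at this
      exact absurd this (not_lt.2 zero_le)
    have h3 : ν.valuation (T / algebraMap k K τ) = 1 := by
      apply le_antisymm h1
      rw [map_inv₀] at h2
      rwa [inv_le_one₀ (zero_lt_iff.2 ((ν.valuation.ne_zero_iff).2 hT0))] at h2
    have h4 : ν.valuation T = ν.valuation (algebraMap k K τ) := by
      rw [map_div₀] at h3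
      exact (div_eq_one_iff_eq ((ν.valuation.ne_zero_iff).2 hτK)).1 h3
    have h5 : ν.valuation T ^ (2 * H ν) = ν.valuation T ^ (2 * H ν1) := by
      rw [← hlamT ν hν, ← hτlam ν, h4]
    have h6 := (pow_right_strictMono₀ (hT1 ν hν)).injective h5
    omega
  refine ⟨hexG, ⟨τ, hτ0, hC, hE⟩, ?_⟩
  intro ν hν i s hi hs
  obtain ⟨ν', hle, hD⟩ := exists_dom_le hB hν.le
  have h1 := step (k := k) hle (R.gctx ν hν) (R.dctx ν' hD) G.hW (hhole ν hν) hτ0
    (by rw [← hτ]; congr 2; exact hF ν hν) (hZL ν' hD) (hD.le_of_loc hC)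
  obtain ⟨gf, hgf⟩ := gap_fun G.hW ν.valuation (hhole ν hν)
  have h2 := (key hle (R.gctx ν hν) (R.dctx ν' hD) G.hW gf (fun i _ => hgf i)).2 i hi (q0 * 2 ^ L)
  have h3 : gf i = s := IsGap.unique ν.valuation (hgf i) hs
  rw [h3] at h2
  have h4 := h1.2 i hi
  rw [h4, one_mul] at h2
  refine gap_arith hle ?_ (R.gctx ν hν) (R.dctx ν' hD) hs.1 h2
  have := (hν.ext.lt_one_iff (2 : k)).2 R.h2
  rwa [map_ofNat] at this

set_option linter.unusedSectionVars false in
/-- class B exclusion: a point `X` (of either cycle) with `1/T < X < T` at all dominating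
valuations cannot have `|X T| = 1` at all Gauss-type valuations, nor `|X/T| = 1`. -/
theorem class_B (G : Glob n m lam lam' a b x3 c W W') (R : Rep O g ν0 b c q0 L W W') {X : K}
    (h1 : ∀ ν, Dom O g ν0 ν → 1 < ν.valuation (X * TT b c (q0 * 2 ^ L)))
    (h2 : ∀ ν, Dom O g ν0 ν → ν.valuation (X / TT b c (q0 * 2 ^ L)) < 1) :
    (¬ ∀ ν, IsGauss O g ν0 ν → ν.valuation (X * TT b c (q0 * 2 ^ L)) = 1) ∧
    (¬ ∀ ν, IsGauss O g ν0 ν → ν.valuation (X / TT b c (q0 * 2 ^ L)) = 1) := by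
  have hB := R.base
  have hself := dom_self hB
  set T := TT b c (q0 * 2 ^ L) with hTdef
  have hT0 : T ≠ 0 := by
    have := R.TL ν0 hself L le_rfl
    rintro h0
    rw [← hTdef, h0, map_zero] at this
    exact absurd this (not_lt.2 zero_le)
  have hX0 : X ≠ 0 := by
    have := h1 ν0 hself
    rintro h0
    rw [h0, zero_mul, map_zero] at this
    exact absurd this (not_lt.2 zero_le)
  have hle1 : ∀ P, IsDel O g ν0 P → P.valuation (X / T) ≤ 1 := by
    intro P hP
    have hD := IsDel.dom hB hP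
    rw [ValuationSubring.valuation_le_one_iff]
    exact comp_le hP.pl O ((ValuationSubring.valuation_le_one_iff _ _).1 (h2 _ hD).le)
  have hle2 : ∀ P, IsDel O g ν0 P → P.valuation (X * T)⁻¹ ≤ 1 := by
    intro P hP
    have hD := IsDel.dom hB hP
    rw [ValuationSubring.valuation_le_one_iff]
    exact comp_le hP.pl O ((ValuationSubring.valuation_le_one_iff _ _).1
      (v_inv_lt_one (h1 _ hD)).le)
  constructor
  · intro hall
    have hmem : X * T ∈ Loc O g ν0 := by
      refine mp G.td hB (fun P hP => ?_) (fun ν hν => (hall ν hν).le)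
      have e : X * T = X / T * T ^ 2 := by field_simp
      rw [e, map_mul, map_pow]
      exact mul_le_one' (hle1 P hP) (pow_le_one₀ zero_le (R.del P hP))
    exact absurd (hself.le_of_loc hmem) (not_le.2 (h1 ν0 hself))
  · intro hall
    have hmem : T / X ∈ Loc O g ν0 := by
      refine mp G.td hB (fun P hP => ?_) (fun ν hν => ?_)
      · have e : T / X = (X * T)⁻¹ * T ^ 2 := by field_simp
        rw [e, map_mul, map_pow]
        exact mul_le_one' (hle2 P hP) (pow_le_one₀ zero_le (R.del P hP))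
      · have e : T / X = (X / T)⁻¹ := by rw [inv_div]
        rw [e, map_inv₀, hall ν hν, inv_one]
    have h3 := hself.le_of_loc hmem
    have h4 : 1 < ν0.valuation (X / T)⁻¹ :=
      v_inv_gt_one (div_ne_zero hX0 hT0) (h2 ν0 hself)
    rw [inv_div] at h4
    exact absurd h3 (not_le.2 h4)

end H7

end Pool.Agent.helper56.P3
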